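import Mathlib

/-!
# Zeros and poles of Hasse-Weil L-functions on the edge `Re s = i/2 + 1`

Let `X` be a smooth projective variety over `ℚ`, `i` a degree, `b = dim H^i`. By Deligne (1974) the
local polynomials of `L(X, s)` at the primes of good reduction have degree `b` and all their roots
have absolute value `p ^ (-i/2)`; at the finitely many other primes they are polynomials with
constant term one (for every choice of the auxiliary prime). So they form a `LocalFactors i b`. We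
bound the orders of all zeros and poles on the line `Re s = i/2 + 1` of the L-function and of all
its twists by primitive Dirichlet characters together: the sum of the squares of the orders is at
most `b ^ 2`.
-/

open Complex Filter Topology Polynomial

namespace Pool.Agent.Results.MP_039d94_nt.EdgePoles

lemma aux_log {z : ℂ} (hz : ‖z‖ ≤ 1/2) : ‖-Complex.log (1 - z) - z‖ ≤ ‖z‖^2 := by
  have h1 : ‖z‖ < 1 := by linarith
  have h := Complex.norm_log_one_sub_inv_sub_self_le h1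
  have h2 : Complex.log (1 - z)⁻¹ = - Complex.log (1 - z) := by
    apply Complex.log_inv
    have : 0 < (1 - z).re := by
      have := Complex.abs_re_le_norm z
      have := abs_le.mp this
      simp; linarith
    intro h3
    rw [Complex.arg_eq_pi_iff] at h3
    linarith [h3.1]
  rw [h2] at h
  refine h.trans ?_
  have h4 : (1 - ‖z‖)⁻¹ ≤ 2 := by
    rw [inv_le_comm₀ (by linarith) (by norm_num)]; linarith
  have := norm_nonneg z
  nlinarith [sq_nonneg ‖z‖]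

/-- factorisation of a polynomial with constant term one over the inverse roots -/
lemma eval_eq_prod_inv {P : ℂ[X]} (h0 : P.coeff 0 = 1) (x : ℂ) :
    P.eval x = (P.roots.map (fun z => 1 - z⁻¹ * x)).prod := by
  have hs : P.Splits := IsAlgClosed.splits P
  have h1 := hs.eval_eq_prod_roots x
  have h2 := hs.eval_eq_prod_roots 0
  rw [← coeff_zero_eq_eval_zero, h0] at h2
  have hP : P ≠ 0 := by
    rintro rfl; simp at h0
  have hne : ∀ z ∈ P.roots, z ≠ 0 := by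
    intro z hz h
    rw [mem_roots hP, IsRoot.def, h, ← coeff_zero_eq_eval_zero, h0] at hz
    exact one_ne_zero hz
  have h3 : (P.roots.map (fun z => x - z)).prod
      = (P.roots.map (fun z => 0 - z)).prod * (P.roots.map (fun z => 1 - z⁻¹ * x)).prod := by
    rw [← Multiset.prod_map_mul]
    congr 1
    refine Multiset.map_congr rfl fun z hz => ?_
    have := hne z hz
    field_simp
    ring
  rw [h1, h3, ← mul_assoc, ← h2, one_mul]

/-- the sum of the inverse roots -/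
noncomputable def tr (P : ℂ[X]) : ℂ := (P.roots.map (fun z => z⁻¹)).sum

/-- logarithm of the local factor -/
noncomputable def G (P : ℂ[X]) (x : ℂ) : ℂ := (P.roots.map (fun z => -Complex.log (1 - z⁻¹ * x))).sum

lemma norm_multiset_sum_le {m : Multiset ℂ} {f : ℂ → ℂ} {C : ℝ} (h : ∀ z ∈ m, ‖f z‖ ≤ C) :
    ‖(m.map f).sum‖ ≤ Multiset.card m * C := by
  induction m using Multiset.induction_on with
  | empty => simp
  | cons a m ih =>
    rw [Multiset.map_cons, Multiset.sum_cons, Multiset.card_cons]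
    refine (norm_add_le _ _).trans ?_
    have h1 := h a (Multiset.mem_cons_self a m)
    have h2 := ih (fun z hz => h z (Multiset.mem_cons_of_mem hz))
    push_cast
    linarith

section
variable {P : ℂ[X]} {b : ℕ} {R : ℝ}

lemma card_roots_le (hb : P.natDegree ≤ b) : (Multiset.card P.roots : ℝ) ≤ b := by
  exact_mod_cast (card_roots' P).trans hb

lemma norm_tr_le (hb : P.natDegree ≤ b) (hR : 0 < R) (hP : P ≠ 0)
    (hroot : ∀ z, P.eval z = 0 → ‖z‖ = R) : ‖tr P‖ ≤ b * R⁻¹ := by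
  have h1 : ‖tr P‖ ≤ Multiset.card P.roots * R⁻¹ := by
    apply norm_multiset_sum_le
    intro z hz
    rw [mem_roots hP] at hz
    rw [norm_inv, hroot z hz]
  exact h1.trans (mul_le_mul_of_nonneg_right (card_roots_le hb) (inv_nonneg.mpr hR.le))

lemma exp_G (h0 : P.coeff 0 = 1)
    (hroot : ∀ z, P.eval z = 0 → ‖z‖ = R) {x : ℂ} (hx : ‖x‖ * R⁻¹ ≤ 1/2) :
    Complex.exp (G P x) = (P.eval x)⁻¹ := by
  have hP : P ≠ 0 := by
    rintro rfl; simp at h0
  rw [eval_eq_prod_inv h0, G]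
  have key : ∀ m : Multiset ℂ, (∀ z ∈ m, ‖z‖ = R) →
      Complex.exp ((m.map (fun z => -Complex.log (1 - z⁻¹ * x))).sum)
       = ((m.map (fun z => 1 - z⁻¹ * x)).prod)⁻¹ := by
    intro m hm
    induction m using Multiset.induction_on with
    | empty => simp
    | cons a m ih =>
      rw [Multiset.map_cons, Multiset.sum_cons, Multiset.map_cons, Multiset.prod_cons,
        Complex.exp_add, ih (fun z hz => hm z (Multiset.mem_cons_of_mem hz)), mul_inv]
      congr 1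
      rw [Complex.exp_neg, Complex.exp_log]
      intro h
      have h1 : a⁻¹ * x = 1 := by
        linear_combination -h
      have h2 : ‖a⁻¹ * x‖ ≤ 1/2 := by
        rw [norm_mul, norm_inv, hm a (Multiset.mem_cons_self a m), mul_comm]
        exact hx
      rw [h1] at h2
      norm_num at h2
  apply key
  intro z hz
  rw [mem_roots hP] at hz
  exact hroot z hz

lemma norm_G_sub_le (hb : P.natDegree ≤ b) (hP : P ≠ 0)
    (hroot : ∀ z, P.eval z = 0 → ‖z‖ = R) {x : ℂ} (hx : ‖x‖ * R⁻¹ ≤ 1/2) :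
    ‖G P x - tr P * x‖ ≤ b * (‖x‖ * R⁻¹)^2 := by
  have h1 : G P x - tr P * x = (P.roots.map (fun z => -Complex.log (1 - z⁻¹ * x) - z⁻¹ * x)).sum := by
    rw [G, tr, Multiset.sum_map_sub, Multiset.sum_map_mul_right]
  rw [h1]
  have h2 : ‖(P.roots.map (fun z => -Complex.log (1 - z⁻¹ * x) - z⁻¹ * x)).sum‖
      ≤ Multiset.card P.roots * (‖x‖ * R⁻¹)^2 := by
    apply norm_multiset_sum_le
    intro z hz
    rw [mem_roots hP] at hz
    have h3 : ‖z⁻¹ * x‖ = ‖x‖ * R⁻¹ := by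
      rw [norm_mul, norm_inv, hroot z hz, mul_comm]
    have h4 := aux_log (z := z⁻¹ * x) (by rw [h3]; exact hx)
    rw [h3] at h4
    exact h4
  exact h2.trans (mul_le_mul_of_nonneg_right (card_roots_le hb) (sq_nonneg _))


end

/-- the sum of p^(-2) -/
noncomputable def Sq : ℝ := ∑' p : Nat.Primes, (p : ℝ) ^ (-2 : ℝ)

lemma summable_sq : Summable (fun p : Nat.Primes => (p : ℝ) ^ (-2 : ℝ)) :=
  Nat.Primes.summable_rpow.mpr (by norm_num)

lemma prime_pos (p : Nat.Primes) : (0:ℝ) < (p:ℝ) := by exact_mod_cast p.prop.pos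
lemma prime_two_le (p : Nat.Primes) : (2:ℝ) ≤ (p:ℝ) := by exact_mod_cast p.prop.two_le

lemma rpow_le_half (p : Nat.Primes) {ε : ℝ} (hε : 0 < ε) : (p:ℝ) ^ (-(1+ε)) ≤ 1/2 := by
  have h1 : (p:ℝ) ^ (-(1+ε)) ≤ (p:ℝ) ^ (-1:ℝ) :=
    Real.rpow_le_rpow_of_exponent_le (by linarith [prime_two_le p]) (by linarith)
  have h2 : (p:ℝ) ^ (-1:ℝ) ≤ 1/2 := by
    rw [Real.rpow_neg_one, one_div]
    exact inv_anti₀ (by norm_num) (prime_two_le p)
  exact h1.trans h2

lemma sq_rpow_le (p : Nat.Primes) {ε : ℝ} (hε : 0 < ε) :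
    ((p:ℝ) ^ (-(1+ε)))^2 ≤ (p:ℝ) ^ (-2:ℝ) := by
  rw [← Real.rpow_natCast, ← Real.rpow_mul (prime_pos p).le]
  apply Real.rpow_le_rpow_of_exponent_le (by linarith [prime_two_le p])
  push_cast; linarith

lemma summable_rpow' {ε : ℝ} (hε : 0 < ε) :
    Summable (fun p : Nat.Primes => (p : ℝ) ^ (-(1+ε))) :=
  Nat.Primes.summable_rpow.mpr (by linarith)

/-- For a Dirichlet character the real part of the prime sum differs from the log of
the absolute value of the L-function by a bounded amount. -/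
lemma psum_sub_log_le {M : ℕ} (ψ : DirichletCharacter ℂ M) (τ : ℝ) {ε : ℝ} (hε : 0 < ε) :
    |∑' p : Nat.Primes, (ψ p * (p:ℂ) ^ (-(τ * I))).re * (p:ℝ) ^ (-(1+ε))
      - Real.log ‖LSeries (fun n => ψ n) (1 + ε + τ * I)‖| ≤ Sq := by
  set s : ℂ := 1 + ε + τ * I with hs
  have hre : s.re = 1 + ε := by simp [hs]
  have hs1 : 1 < s.re := by rw [hre]; linarith
  have hexp := DirichletCharacter.LSeries_eulerProduct_exp_log ψ hs1
  have hsumm := ψ.summable_neg_log_one_sub_mul_prime_cpow hs1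
  rw [← hexp, Complex.norm_exp, Real.log_exp]
  rw [Complex.re_tsum hsumm]
  -- each term
  have hterm : ∀ p : Nat.Primes, (ψ p * (p:ℂ) ^ (-(τ * I))).re * (p:ℝ) ^ (-(1+ε))
      = (ψ p * (p:ℂ) ^ (-s)).re := by
    intro p
    have hp : (p:ℂ) ≠ 0 := by exact_mod_cast p.prop.ne_zero
    have h1 : (p:ℂ) ^ (-s) = (p:ℂ) ^ (-(τ * I)) * (((p:ℝ) ^ (-(1+ε)) : ℝ) : ℂ) := by
      rw [Complex.ofReal_cpow (prime_pos p).le, Complex.ofReal_natCast, ← Complex.cpow_add _ _ hp]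
      congr 1
      rw [hs]; push_cast; ring
    rw [h1, ← mul_assoc, Complex.re_mul_ofReal]
  have hnorm : ∀ p : Nat.Primes, ‖ψ p * (p:ℂ) ^ (-s)‖ ≤ (p:ℝ) ^ (-(1+ε)) := by
    intro p
    rw [norm_mul]
    have h1 : ‖(p:ℂ) ^ (-s)‖ = (p:ℝ) ^ (-(1+ε)) := by
      rw [Complex.norm_natCast_cpow_of_pos p.prop.pos, Complex.neg_re, hre]
    rw [h1]
    exact mul_le_of_le_one_left (Real.rpow_nonneg (prime_pos p).le _) (ψ.norm_le_one _)
  have hS1 : Summable (fun p : Nat.Primes => (ψ p * (p:ℂ) ^ (-s)).re) := by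
    apply Summable.of_norm_bounded (summable_rpow' hε)
    intro p
    exact (Complex.abs_re_le_norm _).trans (hnorm p)
  have hS2 : Summable (fun p : Nat.Primes => (-Complex.log (1 - ψ p * (p:ℂ) ^ (-s))).re) :=
    (Complex.hasSum_re hsumm.hasSum).summable
  rw [tsum_congr hterm, ← hS1.tsum_sub hS2]
  have hb : ∀ p : Nat.Primes, ‖(ψ p * (p:ℂ) ^ (-s)).re - (-Complex.log (1 - ψ p * (p:ℂ) ^ (-s))).re‖
      ≤ (p:ℝ) ^ (-2:ℝ) := by
    intro p
    rw [← Complex.sub_re, ← norm_neg, ← Complex.neg_re, neg_sub]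
    refine (Complex.abs_re_le_norm _).trans ?_
    have h1 : ‖ψ p * (p:ℂ) ^ (-s)‖ ≤ 1/2 := (hnorm p).trans (rpow_le_half p hε)
    refine (aux_log h1).trans ?_
    have h2 : ‖ψ p * (p:ℂ) ^ (-s)‖^2 ≤ ((p:ℝ) ^ (-(1+ε)))^2 :=
      pow_le_pow_left₀ (norm_nonneg _) (hnorm p) 2
    exact h2.trans (sq_rpow_le p hε)
  exact tsum_of_norm_bounded summable_sq.hasSum hb

lemma eventually_pos : ∀ᶠ ε : ℝ in 𝓝[>] 0, 0 < ε := self_mem_nhdsWithin

/-- cross terms are bounded -/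
lemma cross_bdd {M : ℕ} [NeZero M] (ψ : DirichletCharacter ℂ M) (τ : ℝ) (h : ψ ≠ 1 ∨ τ ≠ 0) :
    ∃ C : ℝ, ∀ᶠ ε : ℝ in 𝓝[>] 0,
      |∑' p : Nat.Primes, (ψ p * (p:ℂ) ^ (-(τ * I))).re * (p:ℝ) ^ (-(1+ε))| ≤ C := by
  have h1 : (1 + τ * I : ℂ) ≠ 1 ∨ ψ ≠ 1 := by
    rcases h with h | h
    · exact Or.inr h
    · left
      intro h2
      apply h
      have h3 := congrArg Complex.im h2
      simpa using h3
  have hcont : ContinuousAt (DirichletCharacter.LFunction ψ) (1 + τ * I) :=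
    (ψ.differentiableAt_LFunction _ h1).continuousAt
  have hne : DirichletCharacter.LFunction ψ (1 + τ * I) ≠ 0 :=
    ψ.LFunction_ne_zero_of_one_le_re (h1.symm) (by simp)
  have ht : Tendsto (fun ε : ℝ => Real.log ‖DirichletCharacter.LFunction ψ (1 + ε + τ * I)‖) (𝓝[>] 0)
      (𝓝 (Real.log ‖DirichletCharacter.LFunction ψ (1 + τ * I)‖)) := by
    have h3 : Tendsto (fun ε : ℝ => (1 + ε + τ * I : ℂ)) (𝓝[>] 0) (𝓝 (1 + τ * I)) := by
      have : Tendsto (fun ε : ℝ => (1 + ε + τ * I : ℂ)) (𝓝 0) (𝓝 (1 + (0:ℝ) + τ * I)) := by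
        apply Continuous.tendsto
        fun_prop
      simp only [Complex.ofReal_zero, add_zero] at this
      exact this.mono_left nhdsWithin_le_nhds
    exact ((hcont.tendsto.comp h3).norm).log (norm_ne_zero_iff.mpr hne)
  refine ⟨Sq + (|Real.log ‖DirichletCharacter.LFunction ψ (1 + τ * I)‖| + 1), ?_⟩
  have h4 : ∀ᶠ ε : ℝ in 𝓝[>] 0, |Real.log ‖DirichletCharacter.LFunction ψ (1 + ε + τ * I)‖|
      < |Real.log ‖DirichletCharacter.LFunction ψ (1 + τ * I)‖| + 1 :=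
    (ht.abs).eventually (gt_mem_nhds (by linarith))
  filter_upwards [h4, eventually_pos] with ε hε hpos
  have h5 := psum_sub_log_le ψ τ hpos
  have h6 : LSeries (fun n => ψ n) (1 + ε + τ * I) = DirichletCharacter.LFunction ψ (1 + ε + τ * I) := by
    rw [DirichletCharacter.LFunction_eq_LSeries]
    simp [hpos]
  rw [h6] at h5
  have := abs_sub_abs_le_abs_sub (∑' p : Nat.Primes, (ψ p * (p:ℂ) ^ (-(τ * I))).re * (p:ℝ) ^ (-(1+ε)))
    (Real.log ‖DirichletCharacter.LFunction ψ (1 + ε + τ * I)‖)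
  linarith

/-- the prime zeta sum -/
lemma primeSum_le : ∃ C : ℝ, ∀ᶠ ε : ℝ in 𝓝[>] 0,
      ∑' p : Nat.Primes, (p:ℝ) ^ (-(1+ε)) ≤ Real.log (1/ε) + C := by
  have ht : Tendsto (fun ε : ℝ => Real.log ‖(ε : ℂ) * riemannZeta (1 + ε)‖) (𝓝[>] 0) (𝓝 (Real.log ‖(1:ℂ)‖)) := by
    have h3 : Tendsto (fun ε : ℝ => (1 + ε : ℂ)) (𝓝[>] 0) (𝓝[≠] 1) := by
      rw [tendsto_nhdsWithin_iff]
      constructor
      · have : Tendsto (fun ε : ℝ => (1 + ε : ℂ)) (𝓝 0) (𝓝 (1 + (0:ℝ))) := by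
          apply Continuous.tendsto
          fun_prop
        simp only [Complex.ofReal_zero, add_zero] at this
        exact this.mono_left nhdsWithin_le_nhds
      · filter_upwards [eventually_pos] with ε hε
        simp only [Set.mem_compl_iff, Set.mem_singleton_iff, add_eq_left, Complex.ofReal_eq_zero]
        exact hε.ne'
    have h4 := riemannZeta_residue_one.comp h3
    have h5 : Tendsto (fun ε : ℝ => (ε : ℂ) * riemannZeta (1 + ε)) (𝓝[>] 0) (𝓝 1) := by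
      refine h4.congr fun ε => ?_
      simp
    exact (h5.norm).log (by simp)
  rw [norm_one, Real.log_one] at ht
  refine ⟨Sq + 1, ?_⟩
  have h4 : ∀ᶠ ε : ℝ in 𝓝[>] 0, Real.log ‖(ε : ℂ) * riemannZeta (1 + ε)‖ < 1 :=
    ht.eventually (gt_mem_nhds one_pos)
  filter_upwards [h4, eventually_pos] with ε hε hpos
  have h5 := psum_sub_log_le (1 : DirichletCharacter ℂ 1) 0 hpos
  have h6 : LSeries (fun n => (1 : DirichletCharacter ℂ 1) n) (1 + ε + (0:ℝ) * I) = riemannZeta (1 + ε) := by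
    have h7 : (1:ℝ) < (1 + ε + (0:ℝ) * I : ℂ).re := by simp [hpos]
    rw [← DirichletCharacter.LFunction_eq_LSeries _ h7, DirichletCharacter.LFunction_modOne_eq]
    simp
  rw [h6] at h5
  have h8 : ∀ p : Nat.Primes, ((1 : DirichletCharacter ℂ 1) p * (p:ℂ) ^ (-((0:ℝ) * I))).re * (p:ℝ) ^ (-(1+ε))
     = (p:ℝ) ^ (-(1+ε)) := by
    intro p
    rw [MulChar.one_apply (isUnit_of_subsingleton _)]
    simp
  rw [tsum_congr h8] at h5
  rw [norm_mul] at hε
  have hz : riemannZeta (1 + ε) ≠ 0 := riemannZeta_ne_zero_of_one_le_re (by simp [hpos.le])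
  rw [Real.log_mul (by simp [hpos.ne']) (norm_ne_zero_iff.mpr hz), Complex.norm_real, Real.norm_eq_abs,
    abs_of_pos hpos] at hε
  rw [one_div, Real.log_inv]
  have := (abs_le.mp h5).2
  linarith


/-- Abstract Bessel inequality -/
lemma bessel_abstract {α : Type*} (F : Finset α) {b : ℝ} (hb : 0 ≤ b) {τ : Nat.Primes → ℂ}
    {w : α → Nat.Primes → ℂ} (hτ : ∀ p, ‖τ p‖ ≤ b) (hw : ∀ a p, ‖w a p‖ ≤ 1)
    {ε : ℝ} (hε : 0 < ε) (y : α → ℝ) :
    0 ≤ b^2 * ∑' p : Nat.Primes, (p:ℝ) ^ (-(1+ε))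
      - 2 * ∑ a ∈ F, y a * ∑' p : Nat.Primes, (τ p * w a p).re * (p:ℝ) ^ (-(1+ε))
      + ∑ a ∈ F, ∑ a' ∈ F, y a * y a' *
        ∑' p : Nat.Primes, (w a p * (starRingEnd ℂ) (w a' p)).re * (p:ℝ) ^ (-(1+ε)) := by
  have hsum := summable_rpow' hε
  have hbd : ∀ f : Nat.Primes → ℝ, (∃ C, ∀ p, |f p| ≤ C) →
      Summable (fun p : Nat.Primes => f p * (p:ℝ) ^ (-(1+ε))) := by
    rintro f ⟨C, hC⟩
    apply Summable.of_norm_bounded (hsum.mul_left C)
    intro p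
    rw [norm_mul, Real.norm_eq_abs, Real.norm_of_nonneg (Real.rpow_nonneg (prime_pos p).le _)]
    exact mul_le_mul_of_nonneg_right (hC p) (Real.rpow_nonneg (prime_pos p).le _)
  have hX : ∀ a, Summable (fun p : Nat.Primes => (τ p * w a p).re * (p:ℝ) ^ (-(1+ε))) := by
    intro a
    apply hbd
    refine ⟨b, fun p => (Complex.abs_re_le_norm _).trans ?_⟩
    rw [norm_mul]
    have := hτ p
    have := hw a p
    nlinarith [norm_nonneg (τ p), norm_nonneg (w a p)]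
  have hQ : ∀ a a', Summable (fun p : Nat.Primes =>
      (w a p * (starRingEnd ℂ) (w a' p)).re * (p:ℝ) ^ (-(1+ε))) := by
    intro a a'
    apply hbd
    refine ⟨1, fun p => (Complex.abs_re_le_norm _).trans ?_⟩
    rw [norm_mul, RCLike.norm_conj]
    have := hw a p
    have := hw a' p
    nlinarith [norm_nonneg (w a' p), norm_nonneg (w a p)]
  have h1 : ∀ p : Nat.Primes, 0 ≤ b^2 * (p:ℝ) ^ (-(1+ε))
      - 2 * ∑ a ∈ F, y a * ((τ p * w a p).re * (p:ℝ) ^ (-(1+ε)))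
      + ∑ a ∈ F, ∑ a' ∈ F, y a * y a' *
        ((w a p * (starRingEnd ℂ) (w a' p)).re * (p:ℝ) ^ (-(1+ε))) := by
    intro p
    set v : ℂ := ∑ a ∈ F, (y a : ℂ) * w a p with hv
    have hr : 0 ≤ (p:ℝ) ^ (-(1+ε)) := Real.rpow_nonneg (prime_pos p).le _
    have e1 : ∑ a ∈ F, y a * ((τ p * w a p).re * (p:ℝ) ^ (-(1+ε)))
        = (τ p * v).re * (p:ℝ) ^ (-(1+ε)) := by
      rw [hv, Finset.mul_sum, Complex.re_sum, Finset.sum_mul]
      refine Finset.sum_congr rfl fun a _ => ?_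
      rw [← mul_assoc]
      congr 1
      rw [show τ p * ((y a : ℂ) * w a p) = (y a : ℂ) * (τ p * w a p) by ring, Complex.re_ofReal_mul]
    have e2 : ∑ a ∈ F, ∑ a' ∈ F, y a * y a' *
        ((w a p * (starRingEnd ℂ) (w a' p)).re * (p:ℝ) ^ (-(1+ε)))
        = ‖v‖^2 * (p:ℝ) ^ (-(1+ε)) := by
      have : ‖v‖^2 = (v * (starRingEnd ℂ) v).re := by
        rw [Complex.mul_conj, Complex.ofReal_re, Complex.normSq_eq_norm_sq]
      rw [this, hv, map_sum, Finset.sum_mul_sum, Complex.re_sum, Finset.sum_mul]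
      refine Finset.sum_congr rfl fun a _ => ?_
      rw [Complex.re_sum, Finset.sum_mul]
      refine Finset.sum_congr rfl fun a' _ => ?_
      rw [← mul_assoc]
      congr 1
      rw [map_mul, Complex.conj_ofReal, show (y a : ℂ) * w a p * ((y a' : ℂ) * (starRingEnd ℂ) (w a' p))
        = ((y a * y a' : ℝ) : ℂ) * (w a p * (starRingEnd ℂ) (w a' p)) by push_cast; ring,
        Complex.re_ofReal_mul]
    rw [e1, e2]
    have h2 : (τ p * v).re ≤ ‖τ p‖ * ‖v‖ := (Complex.re_le_norm _).trans (norm_mul_le _ _)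
    have h3 : (τ p * v).re ≤ b * ‖v‖ := h2.trans (mul_le_mul_of_nonneg_right (hτ p) (norm_nonneg _))
    have h4 : 0 ≤ (b^2 - 2 * (τ p * v).re + ‖v‖^2) := by nlinarith [sq_nonneg (b - ‖v‖)]
    have h5 := mul_nonneg h4 hr
    linarith
  have h2 := tsum_nonneg (L := SummationFilter.unconditional _) h1
  have s1 : Summable (fun p : Nat.Primes => b^2 * (p:ℝ) ^ (-(1+ε))) := hsum.mul_left _
  have s2 : Summable (fun p : Nat.Primes => 2 * ∑ a ∈ F, y a * ((τ p * w a p).re * (p:ℝ) ^ (-(1+ε)))) :=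
    (summable_sum (fun a _ => (hX a).mul_left _)).mul_left 2
  have s3 : Summable (fun p : Nat.Primes => ∑ a ∈ F, ∑ a' ∈ F, y a * y a' *
        ((w a p * (starRingEnd ℂ) (w a' p)).re * (p:ℝ) ^ (-(1+ε)))) :=
    summable_sum (fun a _ => summable_sum (fun a' _ => (hQ a a').mul_left _))
  rw [(s1.sub s2).tsum_add s3, s1.tsum_sub s2, tsum_mul_left, tsum_mul_left,
    Summable.tsum_finsetSum (fun a _ => (hX a).mul_left _),
    Summable.tsum_finsetSum (fun a _ => summable_sum (fun a' _ => (hQ a a').mul_left _))] at h2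
  have e3 : ∀ a ∈ F, ∑' p : Nat.Primes, y a * ((τ p * w a p).re * (p:ℝ) ^ (-(1+ε)))
      = y a * ∑' p : Nat.Primes, (τ p * w a p).re * (p:ℝ) ^ (-(1+ε)) := fun a _ => tsum_mul_left
  rw [Finset.sum_congr rfl e3] at h2
  have e4 : ∀ a ∈ F, ∑' p : Nat.Primes, ∑ a' ∈ F, y a * y a' *
        ((w a p * (starRingEnd ℂ) (w a' p)).re * (p:ℝ) ^ (-(1+ε)))
      = ∑ a' ∈ F, y a * y a' * ∑' p : Nat.Primes, (w a p * (starRingEnd ℂ) (w a' p)).re * (p:ℝ) ^ (-(1+ε)) := by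
    intro a _
    rw [Summable.tsum_finsetSum (fun a' _ => (hQ a a').mul_left _)]
    exact Finset.sum_congr rfl fun a' _ => tsum_mul_left
  rw [Finset.sum_congr rfl e4] at h2
  exact h2

/-- Abstract asymptotic Bessel inequality. -/
lemma bessel_limit {α : Type*} [DecidableEq α] (F : Finset α) {b : ℝ} (hb : 0 ≤ b) {τ : Nat.Primes → ℂ}
    {w : α → Nat.Primes → ℂ} (hτ : ∀ p, ‖τ p‖ ≤ b) (hw : ∀ a p, ‖w a p‖ ≤ 1)
    (hcross : ∀ a ∈ F, ∀ a' ∈ F, a ≠ a' → ∃ C : ℝ, ∀ᶠ ε : ℝ in 𝓝[>] 0,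
      |∑' p : Nat.Primes, (w a p * (starRingEnd ℂ) (w a' p)).re * (p:ℝ) ^ (-(1+ε))| ≤ C)
    (x : α → ℝ → ℝ) (hx : ∀ a ∈ F, ∃ C : ℝ, ∀ᶠ ε : ℝ in 𝓝[>] 0,
      |x a ε - ∑' p : Nat.Primes, (τ p * w a p).re * (p:ℝ) ^ (-(1+ε))| ≤ C) :
    ∃ C : ℝ, ∀ᶠ ε : ℝ in 𝓝[>] 0,
      ∑ a ∈ F, (x a ε / Real.log (1/ε))^2 ≤ b^2 + C / Real.log (1/ε) := by
  -- uniform constant for the cross terms
  have hcross' : ∃ C : ℝ, 0 ≤ C ∧ ∀ᶠ ε : ℝ in 𝓝[>] 0, ∀ a ∈ F, ∀ a' ∈ F, a ≠ a' →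
      |∑' p : Nat.Primes, (w a p * (starRingEnd ℂ) (w a' p)).re * (p:ℝ) ^ (-(1+ε))| ≤ C := by
    choose! C hC using hcross
    refine ⟨∑ a ∈ F, ∑ a' ∈ F, |C a a'|, by positivity, ?_⟩
    rw [Filter.eventually_all_finset]
    intro a ha
    rw [Filter.eventually_all_finset]
    intro a' ha'
    by_cases haa : a = a'
    · exact Filter.Eventually.of_forall fun _ h => absurd haa h
    filter_upwards [hC a ha a' ha' haa] with ε hε _
    refine hε.trans ((le_abs_self _).trans ?_)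
    have h1 : |C a a'| ≤ ∑ a' ∈ F, |C a a'| :=
      Finset.single_le_sum (f := fun a' => |C a a'|) (fun _ _ => abs_nonneg _) ha'
    have h2 : ∑ a' ∈ F, |C a a'| ≤ ∑ a ∈ F, ∑ a' ∈ F, |C a a'| :=
      Finset.single_le_sum (f := fun a => ∑ a' ∈ F, |C a a'|)
        (fun _ _ => Finset.sum_nonneg fun _ _ => abs_nonneg _) ha
    exact h1.trans h2
  have hx' : ∃ C : ℝ, 0 ≤ C ∧ ∀ᶠ ε : ℝ in 𝓝[>] 0, ∀ a ∈ F,
      |x a ε - ∑' p : Nat.Primes, (τ p * w a p).re * (p:ℝ) ^ (-(1+ε))| ≤ C := by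
    choose! C hC using hx
    refine ⟨∑ a ∈ F, |C a|, by positivity, ?_⟩
    rw [Filter.eventually_all_finset]
    intro a ha
    filter_upwards [hC a ha] with ε hε
    exact hε.trans ((le_abs_self _).trans
      (Finset.single_le_sum (f := fun a => |C a|) (fun _ _ => abs_nonneg _) ha))
  obtain ⟨C₁, hC₁, h₁⟩ := hcross'
  obtain ⟨C₂, hC₂, h₂⟩ := hx'
  obtain ⟨C₃, h₃⟩ := primeSum_le
  set n : ℝ := (F.card : ℝ) with hn
  have hn0 : 0 ≤ n := by positivity
  -- bound for |x a ε / log|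
  set K : ℝ := b * (1 + |C₃|) + C₂ with hK
  have hK0 : 0 ≤ K := by positivity
  refine ⟨b^2 * |C₃| + n * (2 * K * C₂ + K^2 * |C₃|) + n^2 * K^2 * C₁, ?_⟩
  have hlog : ∀ᶠ ε : ℝ in 𝓝[>] 0, 1 ≤ Real.log (1/ε) := by
    have : Tendsto (fun ε : ℝ => Real.log (1/ε)) (𝓝[>] 0) atTop := by
      have h := tendsto_inv_nhdsGT_zero (𝕜 := ℝ)
      simp only [one_div]
      exact Real.tendsto_log_atTop.comp h
    exact this.eventually_ge_atTop 1
  filter_upwards [h₁, h₂, h₃, hlog, eventually_pos] with ε e1 e2 e3 e4 e5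
  set ℓ := Real.log (1/ε) with hℓ
  set S := ∑' p : Nat.Primes, (p:ℝ) ^ (-(1+ε)) with hS
  set X : α → ℝ := fun a => ∑' p : Nat.Primes, (τ p * w a p).re * (p:ℝ) ^ (-(1+ε)) with hX
  set Q : α → α → ℝ := fun a a' => ∑' p : Nat.Primes, (w a p * (starRingEnd ℂ) (w a' p)).re * (p:ℝ) ^ (-(1+ε)) with hQ
  have hsum := summable_rpow' e5
  have hS0 : 0 ≤ S := tsum_nonneg fun p => Real.rpow_nonneg (prime_pos p).le _
  have hSle : S ≤ ℓ + |C₃| := e3.trans (by linarith [le_abs_self C₃])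
  have hℓ0 : 0 < ℓ := by linarith
  have hXle : ∀ a, |X a| ≤ b * S := by
    intro a
    have : ∀ p : Nat.Primes, ‖(τ p * w a p).re * (p:ℝ) ^ (-(1+ε))‖ ≤ b * (p:ℝ) ^ (-(1+ε)) := by
      intro p
      rw [norm_mul, Real.norm_of_nonneg (Real.rpow_nonneg (prime_pos p).le _)]
      apply mul_le_mul_of_nonneg_right _ (Real.rpow_nonneg (prime_pos p).le _)
      refine (Complex.abs_re_le_norm _).trans ?_
      rw [norm_mul]
      have := hτ p
      have := hw a p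
      nlinarith [norm_nonneg (τ p), norm_nonneg (w a p)]
    exact tsum_of_norm_bounded (hsum.hasSum.mul_left b) this
  have hQle : ∀ a, |Q a a| ≤ S := by
    intro a
    have : ∀ p : Nat.Primes, ‖(w a p * (starRingEnd ℂ) (w a p)).re * (p:ℝ) ^ (-(1+ε))‖ ≤ (p:ℝ) ^ (-(1+ε)) := by
      intro p
      rw [norm_mul, Real.norm_of_nonneg (Real.rpow_nonneg (prime_pos p).le _)]
      apply mul_le_of_le_one_left (Real.rpow_nonneg (prime_pos p).le _)
      refine (Complex.abs_re_le_norm _).trans ?_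
      rw [norm_mul, RCLike.norm_conj]
      have := hw a p
      nlinarith [norm_nonneg (w a p)]
    exact tsum_of_norm_bounded hsum.hasSum this
  have hxle : ∀ a ∈ F, |x a ε| ≤ K * ℓ := by
    intro a ha
    have h5 := e2 a ha
    have h6 : |x a ε| ≤ |X a| + C₂ := by
      have := abs_sub_abs_le_abs_sub (x a ε) (X a)
      linarith
    have h7 : b * S ≤ b * (ℓ + |C₃|) := mul_le_mul_of_nonneg_left hSle hb
    have h8 : |C₃| ≤ |C₃| * ℓ := le_mul_of_one_le_right (abs_nonneg _) e4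
    have h9 : C₂ ≤ C₂ * ℓ := le_mul_of_one_le_right hC₂ e4
    have h10 := hXle a
    have h11 : b * |C₃| ≤ b * (|C₃| * ℓ) := mul_le_mul_of_nonneg_left h8 hb
    rw [hK]
    nlinarith
  set y : α → ℝ := fun a => x a ε / ℓ with hy
  have hyle : ∀ a ∈ F, |y a| ≤ K := by
    intro a ha
    rw [hy]
    simp only
    rw [abs_div, abs_of_pos hℓ0, div_le_iff₀ hℓ0]
    exact hxle a ha
  have hB := bessel_abstract F hb hτ hw e5 y
  change 0 ≤ b^2 * S - 2 * ∑ a ∈ F, y a * X a + ∑ a ∈ F, ∑ a' ∈ F, y a * y a' * Q a a' at hB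
  -- lower bound for sum y X
  have hyx : ∀ a, y a * x a ε = (y a)^2 * ℓ := by
    intro a
    rw [hy]
    simp only
    field_simp
  have hyX : ∀ a ∈ F, (y a)^2 * ℓ - K * C₂ ≤ y a * X a := by
    intro a ha
    have h5 : |y a * (x a ε - X a)| ≤ K * C₂ := by
      rw [abs_mul]
      exact mul_le_mul (hyle a ha) (e2 a ha) (abs_nonneg _) hK0
    have h6 := (abs_le.mp h5).2
    have h7 := hyx a
    linarith [mul_sub (y a) (x a ε) (X a)]
  have hsumyX : (∑ a ∈ F, (y a)^2) * ℓ - n * (K * C₂) ≤ ∑ a ∈ F, y a * X a := by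
    have := Finset.sum_le_sum hyX
    rw [Finset.sum_sub_distrib, ← Finset.sum_mul, Finset.sum_const, nsmul_eq_mul] at this
    exact this
  -- upper bound for the double sum
  have hdd : ∀ a ∈ F, ∀ a' ∈ F, y a * y a' * Q a a' ≤
      (if a = a' then (y a)^2 * ℓ + K^2 * |C₃| else 0) + K^2 * C₁ := by
    intro a ha a' ha'
    by_cases haa : a = a'
    · subst haa
      rw [if_pos rfl]
      have h5 : y a * y a * Q a a ≤ (y a)^2 * S := by
        have := (abs_le.mp (hQle a)).2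
        nlinarith [mul_self_nonneg (y a)]
      have h6 : (y a)^2 * S ≤ (y a)^2 * (ℓ + |C₃|) := mul_le_mul_of_nonneg_left hSle (sq_nonneg _)
      have h7 : (y a)^2 * |C₃| ≤ K^2 * |C₃| := by
        apply mul_le_mul_of_nonneg_right _ (abs_nonneg _)
        rw [← sq_abs]
        exact pow_le_pow_left₀ (abs_nonneg _) (hyle a ha) 2
      have h8 : 0 ≤ K^2 * C₁ := by positivity
      nlinarith
    · rw [if_neg haa, zero_add]
      refine (le_abs_self _).trans ?_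
      rw [abs_mul, abs_mul, sq]
      exact mul_le_mul (mul_le_mul (hyle a ha) (hyle a' ha') (abs_nonneg _) hK0)
        (e1 a ha a' ha' haa) (abs_nonneg _) (by positivity)
  have hdsum : ∑ a ∈ F, ∑ a' ∈ F, y a * y a' * Q a a' ≤
      (∑ a ∈ F, (y a)^2) * ℓ + n * (K^2 * |C₃|) + n^2 * (K^2 * C₁) := by
    have h5 : ∑ a ∈ F, ∑ a' ∈ F, y a * y a' * Q a a' ≤
      ∑ a ∈ F, ∑ a' ∈ F, ((if a = a' then (y a)^2 * ℓ + K^2 * |C₃| else 0) + K^2 * C₁) :=
      Finset.sum_le_sum fun a ha => Finset.sum_le_sum fun a' ha' => hdd a ha a' ha'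
    refine h5.trans (le_of_eq ?_)
    have h6 : ∀ a ∈ F, ∑ a' ∈ F, ((if a = a' then (y a)^2 * ℓ + K^2 * |C₃| else 0) + K^2 * C₁)
        = (y a)^2 * ℓ + K^2 * |C₃| + n * (K^2 * C₁) := by
      intro a ha
      rw [Finset.sum_add_distrib, Finset.sum_ite_eq, if_pos ha, Finset.sum_const, nsmul_eq_mul]
    rw [Finset.sum_congr rfl h6, Finset.sum_add_distrib, Finset.sum_add_distrib, Finset.sum_const,
      Finset.sum_const, ← Finset.sum_mul, nsmul_eq_mul, nsmul_eq_mul]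
    ring
  have hfin : (∑ a ∈ F, (y a)^2) * ℓ ≤ b^2 * ℓ + (b^2 * |C₃| + n * (2 * K * C₂ + K^2 * |C₃|) + n^2 * K^2 * C₁) := by
    have h5 : b^2 * S ≤ b^2 * (ℓ + |C₃|) := mul_le_mul_of_nonneg_left hSle (sq_nonneg _)
    nlinarith
  change ∑ a ∈ F, (y a)^2 ≤ _
  rw [← sub_nonneg]
  have h6 : 0 ≤ (b^2 * ℓ + (b^2 * |C₃| + n * (2 * K * C₂ + K^2 * |C₃|) + n^2 * K^2 * C₁) - (∑ a ∈ F, (y a)^2) * ℓ) / ℓ :=
    div_nonneg (by linarith) hℓ0.le
  have h7 : (b^2 * ℓ + (b^2 * |C₃| + n * (2 * K * C₂ + K^2 * |C₃|) + n^2 * K^2 * C₁) - (∑ a ∈ F, (y a)^2) * ℓ) / ℓ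
     = b^2 + (b^2 * |C₃| + n * (2 * K * C₂ + K^2 * |C₃|) + n^2 * K^2 * C₁) / ℓ - ∑ a ∈ F, (y a)^2 := by
    field_simp
  linarith


/-- Local factors of an L-function of weight `i` and degree at most `b`. For every prime `p` there
is a polynomial `P p` with constant term `1`; at the primes outside the finite set `bad` it has
degree at most `b` and all its complex roots have absolute value `p ^ (-i/2)`. Nothing more is
assumed at the primes in `bad`. -/
structure LocalFactors (i b : ℕ) where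
  P : ℕ → ℂ[X]
  bad : Finset ℕ
  coeff_zero : ∀ p, p.Prime → (P p).coeff 0 = 1
  natDegree_le : ∀ p, p.Prime → p ∉ bad → (P p).natDegree ≤ b
  pure : ∀ p, p.Prime → p ∉ bad → ∀ z : ℂ, (P p).eval z = 0 → ‖z‖ = (p : ℝ) ^ (-(i : ℝ) / 2)

/-- The point `i/2 + 1 + t * I` of the edge `Re s = i/2 + 1` of the half plane of absolute
convergence. -/
noncomputable def pt (i : ℕ) (t : ℝ) : ℂ := (i : ℂ) / 2 + 1 + t * I

variable {i b : ℕ}

/-- The Euler product twisted by a Dirichlet character `χ`. -/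
noncomputable def LocalFactors.L (V : LocalFactors i b) {N : ℕ} (χ : DirichletCharacter ℂ N)
    (s : ℂ) : ℂ :=
  ∏' p : Nat.Primes, ((V.P p).eval (χ p * (p : ℂ) ^ (-s)))⁻¹

/-- A primitive Dirichlet character of some modulus `N ≥ 1`. -/
structure PrimChar where
  N : ℕ
  pos : N ≠ 0
  χ : DirichletCharacter ℂ N
  prim : χ.IsPrimitive

/-- bad primes as primes -/
noncomputable def LocalFactors.badP (V : LocalFactors i b) : Finset Nat.Primes :=
  V.bad.preimage (fun p : Nat.Primes => (p : ℕ)) (fun _ _ _ _ h => Subtype.ext h)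

lemma mem_badP (V : LocalFactors i b) (p : Nat.Primes) : p ∈ V.badP ↔ (p : ℕ) ∈ V.bad :=
  Finset.mem_preimage

/-- normalised trace, zero at bad primes -/
noncomputable def LocalFactors.τ (V : LocalFactors i b) (p : Nat.Primes) : ℂ :=
  open Classical in if (p : ℕ) ∈ V.bad then 0 else tr (V.P p) * (((p : ℝ) ^ (-(i : ℝ) / 2) : ℝ) : ℂ)

lemma norm_τ_le (V : LocalFactors i b) (p : Nat.Primes) : ‖V.τ p‖ ≤ b := by
  unfold LocalFactors.τ
  split_ifs with h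
  · simp
  · have hR : 0 < (p : ℝ) ^ (-(i : ℝ) / 2) := Real.rpow_pos_of_pos (prime_pos p) _
    have hP : V.P p ≠ 0 := by
      intro h0
      have := V.coeff_zero p p.prop
      rw [h0] at this
      simp at this
    have h1 := norm_tr_le (V.natDegree_le p p.prop h) hR hP (V.pure p p.prop h)
    rw [norm_mul, Complex.norm_real, Real.norm_of_nonneg hR.le]
    calc ‖tr (V.P p)‖ * (p : ℝ) ^ (-(i : ℝ) / 2) ≤ (b * ((p : ℝ) ^ (-(i : ℝ) / 2))⁻¹) * (p : ℝ) ^ (-(i : ℝ) / 2) :=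
          mul_le_mul_of_nonneg_right h1 hR.le
      _ = b := by rw [mul_assoc, inv_mul_cancel₀ hR.ne', mul_one]

/-- the twisting function -/
noncomputable def tw {N : ℕ} (χ : DirichletCharacter ℂ N) (t : ℝ) (p : Nat.Primes) : ℂ :=
  χ p * (p : ℂ) ^ (-(t * I))

lemma norm_cpow_I (p : Nat.Primes) (t : ℝ) : ‖(p : ℂ) ^ (-(t * I))‖ = 1 := by
  rw [Complex.norm_natCast_cpow_of_pos p.prop.pos]
  simp

lemma norm_tw_le {N : ℕ} (χ : DirichletCharacter ℂ N) (t : ℝ) (p : Nat.Primes) : ‖tw χ t p‖ ≤ 1 := by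
  rw [tw, norm_mul, norm_cpow_I, mul_one]
  exact χ.norm_le_one _

/-- the argument of the local polynomial -/
noncomputable def xx (i : ℕ) {N : ℕ} (χ : DirichletCharacter ℂ N) (t ε : ℝ) (p : Nat.Primes) : ℂ :=
  χ p * (p : ℂ) ^ (-(pt i t + ε))

lemma xx_eq {N : ℕ} (χ : DirichletCharacter ℂ N) (t ε : ℝ) (p : Nat.Primes) :
    xx i χ t ε p = tw χ t p * (((p : ℝ) ^ (-(i : ℝ) / 2) : ℝ) : ℂ) * (((p : ℝ) ^ (-(1+ε)) : ℝ) : ℂ) := by
  have hp : (p:ℂ) ≠ 0 := by exact_mod_cast p.prop.ne_zero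
  rw [xx, tw, Complex.ofReal_cpow (prime_pos p).le, Complex.ofReal_cpow (prime_pos p).le,
    Complex.ofReal_natCast, mul_assoc, mul_assoc, ← Complex.cpow_add _ _ hp, ← Complex.cpow_add _ _ hp]
  congr 2
  rw [pt]; push_cast; ring

lemma norm_xx_le {N : ℕ} (χ : DirichletCharacter ℂ N) (t ε : ℝ) (p : Nat.Primes) :
    ‖xx i χ t ε p‖ * ((p : ℝ) ^ (-(i : ℝ) / 2))⁻¹ ≤ (p : ℝ) ^ (-(1+ε)) := by
  have hR : 0 < (p : ℝ) ^ (-(i : ℝ) / 2) := Real.rpow_pos_of_pos (prime_pos p) _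
  have hR' : 0 < (p : ℝ) ^ (-(1+ε)) := Real.rpow_pos_of_pos (prime_pos p) _
  rw [xx_eq, norm_mul, norm_mul, Complex.norm_real, Complex.norm_real, Real.norm_of_nonneg hR.le,
    Real.norm_of_nonneg hR'.le]
  have h := norm_tw_le χ t p
  calc ‖tw χ t p‖ * (p : ℝ) ^ (-(i : ℝ) / 2) * (p : ℝ) ^ (-(1+ε)) * ((p : ℝ) ^ (-(i : ℝ) / 2))⁻¹
      = ‖tw χ t p‖ * (p : ℝ) ^ (-(1+ε)) * ((p : ℝ) ^ (-(i : ℝ) / 2) * ((p : ℝ) ^ (-(i : ℝ) / 2))⁻¹) := by ring
    _ = ‖tw χ t p‖ * (p : ℝ) ^ (-(1+ε)) := by rw [mul_inv_cancel₀ hR.ne', mul_one]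
    _ ≤ 1 * (p : ℝ) ^ (-(1+ε)) := mul_le_mul_of_nonneg_right h hR'.le
    _ = _ := one_mul _

/-- log of the good factor, 0 at bad primes -/
noncomputable def LocalFactors.G' (V : LocalFactors i b) {N : ℕ} (χ : DirichletCharacter ℂ N) (t ε : ℝ)
    (p : Nat.Primes) : ℂ :=
  open Classical in if (p : ℕ) ∈ V.bad then 0 else G (V.P p) (xx i χ t ε p)

lemma norm_G'_sub_le (V : LocalFactors i b) {N : ℕ} (χ : DirichletCharacter ℂ N) (t : ℝ) {ε : ℝ}
    (hε : 0 < ε) (p : Nat.Primes) :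
    ‖V.G' χ t ε p - V.τ p * tw χ t p * (((p : ℝ) ^ (-(1+ε)) : ℝ) : ℂ)‖ ≤ b * (p : ℝ) ^ (-2:ℝ) := by
  unfold LocalFactors.G' LocalFactors.τ
  split_ifs with h
  · simp only [zero_mul, sub_zero, norm_zero]
    positivity
  · have hP : V.P p ≠ 0 := by
      intro h0
      have := V.coeff_zero p p.prop
      rw [h0] at this
      simp at this
    have h1 := norm_xx_le (i := i) χ t ε p
    have h2 : ‖xx i χ t ε p‖ * ((p : ℝ) ^ (-(i : ℝ) / 2))⁻¹ ≤ 1/2 := h1.trans (rpow_le_half p hε)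
    have h3 := norm_G_sub_le (V.natDegree_le p p.prop h) hP (V.pure p p.prop h) h2
    have h4 : tr (V.P p) * (((p : ℝ) ^ (-(i : ℝ) / 2) : ℝ) : ℂ) * tw χ t p * (((p : ℝ) ^ (-(1+ε)) : ℝ) : ℂ)
        = tr (V.P p) * xx i χ t ε p := by
      rw [xx_eq]; ring
    rw [h4]
    refine h3.trans ?_
    apply mul_le_mul_of_nonneg_left _ (Nat.cast_nonneg b)
    have h5 : (‖xx i χ t ε p‖ * ((p : ℝ) ^ (-(i : ℝ) / 2))⁻¹)^2 ≤ ((p:ℝ) ^ (-(1+ε)))^2 := by
      apply pow_le_pow_left₀ _ h1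
      positivity
    exact h5.trans (sq_rpow_le p hε)

lemma summable_main (V : LocalFactors i b) {N : ℕ} (χ : DirichletCharacter ℂ N) (t : ℝ) {ε : ℝ}
    (hε : 0 < ε) : Summable (fun p : Nat.Primes => V.τ p * tw χ t p * (((p : ℝ) ^ (-(1+ε)) : ℝ) : ℂ)) := by
  apply Summable.of_norm_bounded ((summable_rpow' hε).mul_left (b:ℝ))
  intro p
  rw [norm_mul, norm_mul, Complex.norm_real, Real.norm_of_nonneg (Real.rpow_nonneg (prime_pos p).le _)]
  apply mul_le_mul_of_nonneg_right _ (Real.rpow_nonneg (prime_pos p).le _)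
  have h1 := norm_τ_le V p
  have h2 := norm_tw_le χ t p
  nlinarith [norm_nonneg (V.τ p), norm_nonneg (tw χ t p)]

lemma summable_G' (V : LocalFactors i b) {N : ℕ} (χ : DirichletCharacter ℂ N) (t : ℝ) {ε : ℝ}
    (hε : 0 < ε) : Summable (V.G' χ t ε) := by
  have h1 : Summable (fun p : Nat.Primes => V.G' χ t ε p - V.τ p * tw χ t p * (((p : ℝ) ^ (-(1+ε)) : ℝ) : ℂ)) :=
    Summable.of_norm_bounded (summable_sq.mul_left (b:ℝ)) (norm_G'_sub_le V χ t hε)
  have h2 := h1.add (summable_main V χ t hε)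
  simpa using h2

/-- product formula -/
lemma L_eq (V : LocalFactors i b) {N : ℕ} (χ : DirichletCharacter ℂ N) (t : ℝ) {ε : ℝ}
    (hε : 0 < ε) : V.L χ (pt i t + ε) =
      Complex.exp (∑' p, V.G' χ t ε p) * ∏ p ∈ V.badP, ((V.P p).eval (xx i χ t ε p))⁻¹ := by
  have h1 := (summable_G' V χ t hε).hasSum.cexp
  classical
  set h : Nat.Primes → ℂ := fun p => if p ∈ V.badP then ((V.P p).eval (xx i χ t ε p))⁻¹ else 1 with hh
  have h2 : HasProd h (∏ p ∈ V.badP, h p) := by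
    apply hasProd_prod_of_ne_finset_one
    intro p hp
    rw [hh]
    simp only
    rw [if_neg hp]
  have h3 : ∏ p ∈ V.badP, h p = ∏ p ∈ V.badP, ((V.P p).eval (xx i χ t ε p))⁻¹ := by
    apply Finset.prod_congr rfl
    intro p hp
    rw [hh]
    simp only
    rw [if_pos hp]
  rw [h3] at h2
  have h4 := h1.mul h2
  have h5 : (fun p : Nat.Primes => (Complex.exp ∘ V.G' χ t ε) p * h p)
      = fun p : Nat.Primes => ((V.P p).eval (χ p * (p : ℂ) ^ (-(pt i t + ε))))⁻¹ := by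
    funext p
    rw [hh]
    simp only [Function.comp_apply]
    by_cases hp : (p : ℕ) ∈ V.bad
    · rw [if_pos ((mem_badP V p).mpr hp), LocalFactors.G', if_pos hp, Complex.exp_zero, one_mul, xx]
    · rw [if_neg (fun h => hp ((mem_badP V p).mp h)), LocalFactors.G', if_neg hp, mul_one]
      have h1 := norm_xx_le (i := i) χ t ε p
      have h2 : ‖xx i χ t ε p‖ * ((p : ℝ) ^ (-(i : ℝ) / 2))⁻¹ ≤ 1/2 := h1.trans (rpow_le_half p hε)
      rw [exp_G (V.coeff_zero p p.prop) (V.pure p p.prop hp) h2, xx]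
  rw [h5] at h4
  exact h4.tprod_eq

/-- the bad factors are finite and non-zero at the point `pt i t` -/
def LocalFactors.BadFinite (V : LocalFactors i b) {N : ℕ} (χ : DirichletCharacter ℂ N) (t : ℝ) : Prop :=
  ∀ p ∈ V.bad, p.Prime → (V.P p).eval (χ p * (p : ℂ) ^ (-(pt i t))) ≠ 0

lemma tendsto_xx {N : ℕ} (χ : DirichletCharacter ℂ N) (t : ℝ) (p : Nat.Primes) :
    Tendsto (fun ε : ℝ => xx i χ t ε p) (𝓝[>] 0) (𝓝 (χ p * (p : ℂ) ^ (-(pt i t)))) := by
  have hp : (p:ℂ) ≠ 0 := by exact_mod_cast p.prop.ne_zero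
  have h1 : Continuous (fun ε : ℝ => xx i χ t ε p) := by
    unfold xx
    refine continuous_const.mul ?_
    refine Continuous.const_cpow (by fun_prop) (Or.inl hp)
  have h2 := h1.tendsto 0
  simp only [xx, Complex.ofReal_zero, add_zero] at h2
  exact h2.mono_left nhdsWithin_le_nhds

/-- Comparison of `log |L|` with the prime sum. -/
lemma log_L_sub_bdd (V : LocalFactors i b) {N : ℕ} (χ : DirichletCharacter ℂ N) (t : ℝ)
    (hbad : V.BadFinite χ t) :
    ∃ C : ℝ, ∀ᶠ ε : ℝ in 𝓝[>] 0,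
      |Real.log ‖V.L χ (pt i t + ε)‖ - ∑' p : Nat.Primes, (V.τ p * tw χ t p).re * (p:ℝ) ^ (-(1+ε))| ≤ C := by
  -- the finite product
  have hev : ∀ p ∈ V.badP, Tendsto (fun ε : ℝ => Real.log ‖((V.P p).eval (xx i χ t ε p))⁻¹‖) (𝓝[>] 0)
      (𝓝 (Real.log ‖((V.P p).eval (χ p * (p : ℂ) ^ (-(pt i t))))⁻¹‖)) := by
    intro p hp
    have h0 : (V.P p).eval (χ p * (p : ℂ) ^ (-(pt i t))) ≠ 0 :=
      hbad p ((mem_badP V p).mp hp) p.prop
    have h1 : Tendsto (fun ε : ℝ => (V.P p).eval (xx i χ t ε p)) (𝓝[>] 0)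
        (𝓝 ((V.P p).eval (χ p * (p : ℂ) ^ (-(pt i t))))) :=
      ((V.P p).continuous.tendsto _).comp (tendsto_xx χ t p)
    exact ((h1.inv₀ h0).norm).log (norm_ne_zero_iff.mpr (inv_ne_zero h0))
  have hevne : ∀ᶠ ε : ℝ in 𝓝[>] 0, ∀ p ∈ V.badP, (V.P p).eval (xx i χ t ε p) ≠ 0 := by
    rw [Filter.eventually_all_finset]
    intro p hp
    have h0 : (V.P p).eval (χ p * (p : ℂ) ^ (-(pt i t))) ≠ 0 :=
      hbad p ((mem_badP V p).mp hp) p.prop
    have h1 : Tendsto (fun ε : ℝ => (V.P p).eval (xx i χ t ε p)) (𝓝[>] 0)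
        (𝓝 ((V.P p).eval (χ p * (p : ℂ) ^ (-(pt i t))))) :=
      ((V.P p).continuous.tendsto _).comp (tendsto_xx χ t p)
    exact h1.eventually_ne h0
  have hsum := tendsto_finsetSum V.badP hev
  set c := ∑ p ∈ V.badP, Real.log ‖((V.P p).eval (χ p * (p : ℂ) ^ (-(pt i t))))⁻¹‖ with hc
  have hlt : ∀ᶠ ε : ℝ in 𝓝[>] 0, |∑ p ∈ V.badP, Real.log ‖((V.P p).eval (xx i χ t ε p))⁻¹‖| < |c| + 1 :=
    hsum.abs.eventually (gt_mem_nhds (by linarith))
  refine ⟨b * Sq + (|c| + 1), ?_⟩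
  filter_upwards [hevne, hlt, eventually_pos] with ε h1 h2 hε
  rw [L_eq V χ t hε, norm_mul, norm_prod,
    Real.log_mul (norm_ne_zero_iff.mpr (Complex.exp_ne_zero _))
      (Finset.prod_ne_zero_iff.mpr fun p hp => norm_ne_zero_iff.mpr (inv_ne_zero (h1 p hp))),
    Real.log_prod (fun p hp => norm_ne_zero_iff.mpr (inv_ne_zero (h1 p hp))),
    Complex.norm_exp, Real.log_exp, Complex.re_tsum (summable_G' V χ t hε)]
  have h3 : Summable (fun p : Nat.Primes => (V.G' χ t ε p).re) :=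
    (Complex.hasSum_re (summable_G' V χ t hε).hasSum).summable
  have hterm : ∀ p : Nat.Primes, (V.τ p * tw χ t p * (((p : ℝ) ^ (-(1+ε)) : ℝ) : ℂ)).re
      = (V.τ p * tw χ t p).re * (p:ℝ) ^ (-(1+ε)) := fun p => Complex.re_mul_ofReal _ _
  have h4 : Summable (fun p : Nat.Primes => (V.τ p * tw χ t p).re * (p:ℝ) ^ (-(1+ε))) := by
    have := (Complex.hasSum_re (summable_main V χ t hε).hasSum).summable
    exact this.congr hterm
  have h5 : |∑' p : Nat.Primes, (V.G' χ t ε p).re - ∑' p : Nat.Primes, (V.τ p * tw χ t p).re * (p:ℝ) ^ (-(1+ε))|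
      ≤ b * Sq := by
    rw [← h3.tsum_sub h4, ← Real.norm_eq_abs]
    refine tsum_of_norm_bounded (summable_sq.hasSum.mul_left (b:ℝ)) ?_
    intro p
    rw [← hterm p, ← Complex.sub_re]
    exact (Complex.abs_re_le_norm _).trans (norm_G'_sub_le V χ t hε p)
  have h6 : ∑' p : Nat.Primes, (V.G' χ t ε p).re + ∑ p ∈ V.badP, Real.log ‖((V.P p).eval (xx i χ t ε p))⁻¹‖
      - ∑' p : Nat.Primes, (V.τ p * tw χ t p).re * (p:ℝ) ^ (-(1+ε))
      = (∑' p : Nat.Primes, (V.G' χ t ε p).re - ∑' p : Nat.Primes, (V.τ p * tw χ t p).re * (p:ℝ) ^ (-(1+ε)))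
       + ∑ p ∈ V.badP, Real.log ‖((V.P p).eval (xx i χ t ε p))⁻¹‖ := by ring
  rw [h6]
  exact (abs_add_le _ _).trans (add_le_add h5 h2.le)

/-- Two primitive characters with the same lift agree. -/
lemma prim_unique {M N N' : ℕ} [NeZero M] (hN : N ∣ M) (hN' : N' ∣ M) (χ : DirichletCharacter ℂ N)
    (χ' : DirichletCharacter ℂ N') (hχ : χ.IsPrimitive) (hχ' : χ'.IsPrimitive)
    (h : DirichletCharacter.changeLevel hN χ = DirichletCharacter.changeLevel hN' χ') : N = N' := by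
  have key : ∀ {N : ℕ} (hN : N ∣ M) (χ : DirichletCharacter ℂ N), χ.IsPrimitive →
      (DirichletCharacter.changeLevel hN χ).conductor = N := by
    intro N hN χ hχ
    have hN0 : NeZero N := ⟨fun h => NeZero.ne M (Nat.eq_zero_of_zero_dvd (h ▸ hN))⟩
    set ψ := DirichletCharacter.changeLevel hN χ with hψ
    have h1 : N ∈ ψ.conductorSet := ⟨hN, χ, hψ⟩
    have h2 : ψ.conductor ∣ N := DirichletCharacter.conductor_dvd_of_mem_conductorSet ψ h1
    have h3 : DirichletCharacter.changeLevel h2 ψ.primitiveCharacter = χ := by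
      apply DirichletCharacter.changeLevel_injective hN
      rw [← DirichletCharacter.changeLevel_trans, ← hψ]
      exact DirichletCharacter.changeLevel_primitiveCharacter ψ
    have h4 : ψ.conductor ∈ χ.conductorSet := ⟨h2, ψ.primitiveCharacter, h3.symm⟩
    have h5 : χ.conductor ≤ ψ.conductor := Nat.sInf_le h4
    rw [hχ] at h5
    exact le_antisymm (Nat.le_of_dvd (Nat.pos_of_ne_zero hN0.out) h2) h5
  rw [← key hN χ hχ, ← key hN' χ' hχ', h]


lemma cross_prim {ψ ψ' : PrimChar} {t t' : ℝ} (h : (ψ, t) ≠ (ψ', t')) :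
    ∃ C : ℝ, ∀ᶠ ε : ℝ in 𝓝[>] 0,
      |∑' p : Nat.Primes, (tw ψ.χ t p * (starRingEnd ℂ) (tw ψ'.χ t' p)).re * (p:ℝ) ^ (-(1+ε))| ≤ C := by
  obtain ⟨N, hN, χ, hχ⟩ := ψ
  obtain ⟨N', hN', χ', hχ'⟩ := ψ'
  have hM : NeZero (N * N') := ⟨mul_ne_zero hN hN'⟩
  set Ψ : DirichletCharacter ℂ (N * N') :=
    DirichletCharacter.changeLevel (dvd_mul_right N N') χ *
      (DirichletCharacter.changeLevel (dvd_mul_left N' N) χ')⁻¹ with hΨ
  have hval : ∀ p : Nat.Primes, tw χ t p * (starRingEnd ℂ) (tw χ' t' p)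
      = Ψ p * (p:ℂ) ^ (-((t - t' : ℝ) * I)) := by
    intro p
    have hp : (p:ℂ) ≠ 0 := by exact_mod_cast p.prop.ne_zero
    have h1 : (starRingEnd ℂ) ((p : ℂ) ^ (-(t' * I))) = (p:ℂ) ^ (t' * I) := by
      rw [Complex.cpow_def_of_ne_zero hp, Complex.cpow_def_of_ne_zero hp, ← Complex.exp_conj,
        map_mul, ← Complex.natCast_log, Complex.conj_ofReal]
      congr 1
      simp
    have h2 : (p : ℂ) ^ (-(t * I)) * (p:ℂ) ^ (t' * I) = (p:ℂ) ^ (-((t - t' : ℝ) * I)) := by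
      rw [← Complex.cpow_add _ _ hp]
      congr 1
      push_cast; ring
    have h3 : χ p * (starRingEnd ℂ) (χ' p) = Ψ p := by
      by_cases hu : IsUnit ((p : ℕ) : ZMod (N * N'))
      · obtain ⟨u, hu⟩ := hu
        rw [hΨ, MulChar.mul_apply, ← hu, DirichletCharacter.changeLevel_eq_cast_of_dvd,
          ← MulChar.star_apply', DirichletCharacter.changeLevel_eq_cast_of_dvd, hu,
          ZMod.cast_natCast (dvd_mul_right N N'), ZMod.cast_natCast (dvd_mul_left N' N)]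
        rfl
      · rw [Ψ.map_nonunit hu]
        rw [ZMod.isUnit_prime_iff_not_dvd p.prop, not_not] at hu
        rcases (Nat.Prime.dvd_mul p.prop).mp hu with h | h
        · rw [χ.map_nonunit, zero_mul]
          rw [ZMod.isUnit_prime_iff_not_dvd p.prop, not_not]; exact h
        · rw [χ'.map_nonunit, map_zero, mul_zero]
          rw [ZMod.isUnit_prime_iff_not_dvd p.prop, not_not]; exact h
    rw [tw, tw, map_mul, h1, ← h2, ← h3]
    ring
  have hne : Ψ ≠ 1 ∨ t - t' ≠ 0 := by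
    by_contra hcon
    push Not at hcon
    obtain ⟨h1, h2⟩ := hcon
    apply h
    have h3 : t = t' := by linarith
    have h4 : DirichletCharacter.changeLevel (dvd_mul_right N N') χ =
        DirichletCharacter.changeLevel (dvd_mul_left N' N) χ' := by
      rw [hΨ, mul_inv_eq_one] at h1
      exact h1
    have h5 := prim_unique _ _ χ χ' hχ hχ' h4
    subst h5
    have h6 : χ = χ' := DirichletCharacter.changeLevel_injective _ h4
    subst h6
    rw [h3]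
  obtain ⟨C, hC⟩ := cross_bdd Ψ (t - t') hne
  refine ⟨C, ?_⟩
  filter_upwards [hC] with ε hε
  have h1 : ∀ p : Nat.Primes, (tw χ t p * (starRingEnd ℂ) (tw χ' t' p)).re * (p:ℝ) ^ (-(1+ε))
      = (Ψ p * (p:ℂ) ^ (-((t - t' : ℝ) * I))).re * (p:ℝ) ^ (-(1+ε)) := by
    intro p; rw [hval p]
  rw [tsum_congr h1]
  exact hε

/-- `V.HasOrder χ t n`: near the edge point `pt i t` the twisted Euler product agrees, to the right
of the edge, with a function that is meromorphic at that point and has order `n` there (`n > 0`: a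
zero of order `n`; `n < 0`: a pole of order `-n`). -/
def LocalFactors.HasOrder (V : LocalFactors i b) {N : ℕ} (χ : DirichletCharacter ℂ N) (t : ℝ)
    (n : ℤ) : Prop :=
  ∃ f : ℂ → ℂ, MeromorphicAt f (pt i t) ∧ meromorphicOrderAt f (pt i t) = n ∧
    ∀ᶠ s in 𝓝[{s : ℂ | (i : ℝ) / 2 + 1 < s.re}] (pt i t), f s = V.L χ s

lemma tendsto_of_order (V : LocalFactors i b) {N : ℕ} (χ : DirichletCharacter ℂ N) (t : ℝ)
    {n : ℤ} (h : V.HasOrder χ t n) :
    Tendsto (fun ε : ℝ => Real.log ‖V.L χ (pt i t + ε)‖ / Real.log (1/ε)) (𝓝[>] 0) (𝓝 (-n)) := by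
  obtain ⟨f, hf, hn, heq⟩ := h
  obtain ⟨g, hg, hg0, hfg⟩ := (meromorphicOrderAt_eq_int_iff hf).mp hn
  have hlim : Tendsto (fun ε : ℝ => pt i t + ε) (𝓝[>] 0) (𝓝 (pt i t)) := by
    have : Tendsto (fun ε : ℝ => pt i t + ε) (𝓝 0) (𝓝 (pt i t + (0:ℝ))) := by
      apply Continuous.tendsto
      fun_prop
    simp only [Complex.ofReal_zero, add_zero] at this
    exact this.mono_left nhdsWithin_le_nhds
  have hlim1 : Tendsto (fun ε : ℝ => pt i t + ε) (𝓝[>] 0) (𝓝[{s : ℂ | (i : ℝ) / 2 + 1 < s.re}] (pt i t)) := by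
    rw [tendsto_nhdsWithin_iff]
    refine ⟨hlim, ?_⟩
    filter_upwards [eventually_pos] with ε hε
    simp [pt, hε]
  have hlim2 : Tendsto (fun ε : ℝ => pt i t + ε) (𝓝[>] 0) (𝓝[≠] (pt i t)) := by
    rw [tendsto_nhdsWithin_iff]
    refine ⟨hlim, ?_⟩
    filter_upwards [eventually_pos] with ε hε
    simp [hε.ne']
  have h1 := hlim1.eventually heq
  have h2 := hlim2.eventually hfg
  have hgc : Tendsto (fun ε : ℝ => Real.log ‖g (pt i t + ε)‖) (𝓝[>] 0) (𝓝 (Real.log ‖g (pt i t)‖)) :=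
    ((hg.continuousAt.tendsto.comp hlim).norm).log (norm_ne_zero_iff.mpr hg0)
  have hgne : ∀ᶠ ε : ℝ in 𝓝[>] 0, g (pt i t + ε) ≠ 0 :=
    (hg.continuousAt.tendsto.comp hlim).eventually_ne hg0
  have hlog : Tendsto (fun ε : ℝ => Real.log (1/ε)) (𝓝[>] 0) atTop := by
    have h := tendsto_inv_nhdsGT_zero (𝕜 := ℝ)
    simp only [one_div]
    exact Real.tendsto_log_atTop.comp h
  have h3 : Tendsto (fun ε : ℝ => Real.log ‖g (pt i t + ε)‖ / Real.log (1/ε)) (𝓝[>] 0) (𝓝 0) :=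
    hgc.div_atTop hlog
  have h4 : Tendsto (fun ε : ℝ => -(n:ℝ) + Real.log ‖g (pt i t + ε)‖ / Real.log (1/ε)) (𝓝[>] 0)
      (𝓝 (-(n:ℝ) + 0)) := tendsto_const_nhds.add h3
  rw [add_zero] at h4
  refine h4.congr' ?_
  filter_upwards [h1, h2, eventually_pos, hgne, hlog.eventually_gt_atTop 0] with ε e1 e2 e3 e4 e5
  rw [← e1, e2, norm_smul, norm_zpow, add_sub_cancel_left, Complex.norm_real,
    Real.norm_of_nonneg e3.le, Real.log_mul (zpow_ne_zero _ e3.ne') (norm_ne_zero_iff.mpr e4),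
    Real.log_zpow, add_div]
  congr 1
  have h5 : Real.log ε = - Real.log (1/ε) := by rw [one_div, Real.log_inv, neg_neg]
  rw [h5]
  field_simp

/-- Part one: the growth inequality. -/
lemma growth (V : LocalFactors i b) (F : Finset (PrimChar × ℝ))
    (hF : ∀ a ∈ F, V.BadFinite a.1.χ a.2) :
    ∃ C : ℝ, ∀ᶠ ε : ℝ in 𝓝[>] 0,
      ∑ a ∈ F, (Real.log ‖V.L a.1.χ (pt i a.2 + ε)‖ / Real.log (1/ε))^2
        ≤ (b:ℝ)^2 + C / Real.log (1/ε) := by
  classical
  refine bessel_limit F (Nat.cast_nonneg b) (τ := V.τ) (w := fun a => tw a.1.χ a.2)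
    (norm_τ_le V) (fun a p => norm_tw_le a.1.χ a.2 p) ?_
    (fun a ε => Real.log ‖V.L a.1.χ (pt i a.2 + ε)‖) ?_
  · intro a _ a' _ h
    exact cross_prim h
  · intro a ha
    exact log_L_sub_bdd V a.1.χ a.2 (hF a ha)

theorem result {i b : ℕ} (V : LocalFactors i b) :
    (∀ F : Finset (PrimChar × ℝ), (∀ a ∈ F, V.BadFinite a.1.χ a.2) → ∀ δ > 0,
      ∀ᶠ ε : ℝ in 𝓝[>] 0,
        ∑ a ∈ F, (Real.log ‖V.L a.1.χ (pt i a.2 + ε)‖ / Real.log (1 / ε)) ^ 2 ≤ (b : ℝ) ^ 2 + δ) ∧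
    (∀ (F : Finset (PrimChar × ℝ)) (n : PrimChar × ℝ → ℤ),
      (∀ a ∈ F, V.BadFinite a.1.χ a.2 ∧ V.HasOrder a.1.χ a.2 (n a)) →
        ∑ a ∈ F, (n a) ^ 2 ≤ (b : ℤ) ^ 2) ∧
    {a : PrimChar × ℝ | V.BadFinite a.1.χ a.2 ∧ ∃ n : ℤ, n ≠ 0 ∧ V.HasOrder a.1.χ a.2 n}.encard
      ≤ (b ^ 2 : ℕ) := by
  have hlog : Tendsto (fun ε : ℝ => Real.log (1/ε)) (𝓝[>] 0) atTop := by
    have h := tendsto_inv_nhdsGT_zero (𝕜 := ℝ)
    simp only [one_div]
    exact Real.tendsto_log_atTop.comp h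
  have part1 : ∀ F : Finset (PrimChar × ℝ), (∀ a ∈ F, V.BadFinite a.1.χ a.2) → ∀ δ > 0,
      ∀ᶠ ε : ℝ in 𝓝[>] 0,
        ∑ a ∈ F, (Real.log ‖V.L a.1.χ (pt i a.2 + ε)‖ / Real.log (1 / ε)) ^ 2 ≤ (b : ℝ) ^ 2 + δ := by
    intro F hF δ hδ
    obtain ⟨C, hC⟩ := growth V F hF
    have h1 : Tendsto (fun ε : ℝ => C / Real.log (1/ε)) (𝓝[>] 0) (𝓝 0) :=
      tendsto_const_nhds.div_atTop hlog
    filter_upwards [hC, h1.eventually (gt_mem_nhds hδ)] with ε e1 e2
    linarith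
  have part2 : ∀ (F : Finset (PrimChar × ℝ)) (n : PrimChar × ℝ → ℤ),
      (∀ a ∈ F, V.BadFinite a.1.χ a.2 ∧ V.HasOrder a.1.χ a.2 (n a)) →
        ∑ a ∈ F, (n a) ^ 2 ≤ (b : ℤ) ^ 2 := by
    intro F n hF
    have h1 : Tendsto (fun ε : ℝ => ∑ a ∈ F, (Real.log ‖V.L a.1.χ (pt i a.2 + ε)‖ / Real.log (1/ε))^2)
        (𝓝[>] 0) (𝓝 (∑ a ∈ F, (-(n a) : ℝ)^2)) :=
      tendsto_finsetSum F fun a ha => (tendsto_of_order V a.1.χ a.2 (hF a ha).2).pow 2
    have h2 : (∑ a ∈ F, (-(n a) : ℝ)^2) ≤ (b:ℝ)^2 := by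
      apply le_of_forall_pos_le_add
      intro δ hδ
      exact le_of_tendsto h1 (part1 F (fun a ha => (hF a ha).1) δ hδ)
    have h3 : ((∑ a ∈ F, (n a)^2 : ℤ) : ℝ) ≤ ((b:ℤ)^2 : ℤ) := by
      push_cast
      simpa using h2
    exact_mod_cast h3
  refine ⟨part1, part2, ?_⟩
  by_contra hcon
  push Not at hcon
  set S := {a : PrimChar × ℝ | V.BadFinite a.1.χ a.2 ∧ ∃ n : ℤ, n ≠ 0 ∧ V.HasOrder a.1.χ a.2 n} with hS
  have h1 : ((b^2 + 1 : ℕ) : ℕ∞) ≤ S.encard := by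
    have := Order.add_one_le_of_lt hcon
    push_cast at this ⊢
    exact this
  obtain ⟨T, hTS, hT⟩ := Set.exists_subset_encard_eq h1
  have hTfin : T.Finite := Set.finite_of_encard_eq_coe hT
  have hch : ∀ a : PrimChar × ℝ, ∃ n : ℤ, a ∈ T → n ≠ 0 ∧ V.HasOrder a.1.χ a.2 n := by
    intro a
    by_cases ha : a ∈ T
    · obtain ⟨n, hn⟩ := (hTS ha).2
      exact ⟨n, fun _ => hn⟩
    · exact ⟨0, fun h => absurd h ha⟩
  choose n hn using hch
  have h2 := part2 hTfin.toFinset n (fun a ha => by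
    rw [Set.Finite.mem_toFinset] at ha
    exact ⟨(hTS ha).1, (hn a ha).2⟩)
  have h3 : (hTfin.toFinset.card : ℤ) ≤ ∑ a ∈ hTfin.toFinset, (n a)^2 := by
    have h4 : ∀ a ∈ hTfin.toFinset, (1:ℤ) ≤ (n a)^2 := by
      intro a ha
      rw [Set.Finite.mem_toFinset] at ha
      have := (hn a ha).1
      have h5 : 0 < (n a)^2 := by positivity
      linarith
    have := Finset.card_nsmul_le_sum hTfin.toFinset (fun a => (n a)^2) 1 h4
    simpa using this
  have h6 : hTfin.toFinset.card = b^2 + 1 := by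
    have h7 := hTfin.encard_eq_coe_toFinset_card
    rw [hT] at h7
    exact_mod_cast h7.symm
  rw [h6] at h3
  push_cast at h3
  linarith

end Pool.Agent.Results.MP_039d94_nt.EdgePoles
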