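import Mathlib
import Pool.Agent.helper4.HessMain
import Pool.Agent.helper4.FiniteBad

/-! # Hasse–Weil L-functions of two-step regular semisimple Hessenberg varieties -/

noncomputable section

namespace Pool.Agent.Results.MP_039d94_nt.HessenbergTwoStep

open Pool.Agent.Helper4 Polynomial NumberField IsDedekindDomain

/-- The Euler factor at `p` of the Dedekind zeta function of the number field `K` at `s`. -/
def dedFactor (K : Type) [Field K] [NumberField K] (s : ℂ) (p : ℕ) : ℂ :=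
  ∏ᶠ q : {q : HeightOneSpectrum (𝓞 K) // (p : 𝓞 K) ∈ q.asIdeal},
    (1 - (Ideal.absNorm q.1.asIdeal : ℂ) ^ (-s))⁻¹

/-- index set of the fields -/
abbrev Idx {n : ℕ} (S : Matrix (Fin n) (Fin n) ℤ) (a b : ℕ) : Type :=
  Σ k : Fin (min a (n - b) + 1), {A : Finset (𝓞 (LL S.charpoly)) // A ∈ reps S.charpoly k}

lemma prod_idx {n : ℕ} (S : Matrix (Fin n) (Fin n) ℤ) (a b : ℕ)
    (g : ℕ → Finset (𝓞 (LL S.charpoly)) → ℂ) :
    ∏ x : Idx S a b, g x.1 x.2.1
      = ∏ k ∈ Finset.range (min a (n - b) + 1), ∏ A ∈ reps S.charpoly k, g k A := by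
  rw [Fintype.prod_sigma, Finset.prod_range]
  refine Finset.prod_congr rfl fun k _ => ?_
  exact Finset.prod_coe_sort (reps S.charpoly k) (fun A => g k A)

lemma prod_dedFactor {n : ℕ} (S : Matrix (Fin n) (Fin n) ℤ) (a b i : ℕ) (s : ℂ) (p : ℕ) :
    ∏ x : Idx S a b, dedFactor (fieldA x.2.1) (s - (i : ℂ) / 2) p
      ^ (if Even i then (multP n a b x.1).coeff (i / 2) else 0) = dedL S a b i s p := by
  rw [prod_idx S a b (fun k A => dedFactor (fieldA A) (s - (i : ℂ) / 2) p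
      ^ (if Even i then (multP n a b k).coeff (i / 2) else 0))]
  unfold dedL
  split_ifs with h
  · rfl
  · simp

theorem main {n : ℕ} (S : Matrix (Fin n) (Fin n) ℤ)
    (hS : (S.charpoly.map (Int.castRingHom ℚ)).Separable) (a b : ℕ) (hab : a ≤ b) (hbn : b ≤ n) :
    ∃ (t : ℕ) (K : Fin t → Type) (_ : ∀ l, Field (K l)) (_ : ∀ l, NumberField (K l))
      (m : Fin t → ℕ → ℕ),
      (∀ l, Nonempty (K l →+* (S.charpoly.map (Int.castRingHom ℚ)).SplittingField)) ∧
      (∀ (p : ℕ) [Fact p.Prime] (B : ℕ → Multiset ℂ), GoodPrime S p →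
        IsFrobSpec p (fun r => hessCount S a b (GaloisField p r)) B →
        ∀ (i : ℕ) (s : ℂ), ((B i).map (fun α => (1 - α * (p : ℂ) ^ (-s))⁻¹)).prod =
          ∏ l, dedFactor (K l) (s - (i : ℂ) / 2) p ^ m l i) ∧
      ∀ i : ℕ, ∃ (H : ℂ → ℂ) (e : ℕ), Differentiable ℂ H ∧ (Odd i → e = 0) ∧
        ∀ s : ℂ, (i : ℝ) / 2 + 1 < s.re →
          HasProd (fun p : Nat.Primes => ∏ l, dedFactor (K l) (s - (i : ℂ) / 2) p ^ m l i)
            (H s / (s - ((i : ℂ) / 2 + 1)) ^ e) := by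
  classical
  let e : Fin (Fintype.card (Idx S a b)) ≃ Idx S a b := (Fintype.equivFin _).symm
  have key : ∀ (i : ℕ) (s : ℂ) (p : ℕ),
      ∏ l, dedFactor (fieldA (e l).2.1) (s - (i : ℂ) / 2) p
        ^ (if Even i then (multP n a b (e l).1).coeff (i / 2) else 0) = dedL S a b i s p := by
    intro i s p
    rw [← prod_dedFactor]
    exact Equiv.prod_comp e (fun x => dedFactor (fieldA x.2.1) (s - (i : ℂ) / 2) p
      ^ (if Even i then (multP n a b x.1).coeff (i / 2) else 0))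
  refine ⟨Fintype.card (Idx S a b), fun l => fieldA (e l).2.1, fun l => inferInstance,
    fun l => inferInstance,
    fun l i => if Even i then (multP n a b (e l).1).coeff (i / 2) else 0,
    fun l => ⟨algebraMap (fieldA (e l).2.1) (LL S.charpoly)⟩, ?_, ?_⟩
  · intro p hp B hgood hB i s
    rw [key, ← prod_hessB S a b i s hp.out]
    have h1 := isFrobSpec_hessB S hS a b hab hbn p hgood
    rw [hB.unique hp.out.one_lt h1]
  · intro i
    refine ⟨hessH S a b i, poleOrd S a b i, differentiable_hessH S a b i, ?_, ?_⟩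
    · intro hi
      unfold poleOrd
      rw [if_neg (Nat.not_even_iff_odd.mpr hi)]
    · intro s hs
      have h1 := hasProd_dedL' S a b i hs
      simp only [key]
      exact h1

/-- Q1 for the two-step regular semisimple Hessenberg varieties, in all degrees. -/
theorem result (n : ℕ) (S : Matrix (Fin n) (Fin n) ℤ)
    (hS : (S.charpoly.map (Int.castRingHom ℚ)).Separable) (a b : ℕ) (hab : a ≤ b) (hbn : b ≤ n) :
    {p : ℕ | p.Prime ∧ ¬ GoodPrime S p}.Finite ∧
    (∀ (p : ℕ) [Fact p.Prime], GoodPrime S p →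
      ∃! B : ℕ → Multiset ℂ, IsFrobSpec p (fun r => hessCount S a b (GaloisField p r)) B) ∧
    ∃ (t : ℕ) (K : Fin t → Type) (_ : ∀ l, Field (K l)) (_ : ∀ l, NumberField (K l))
      (m : Fin t → ℕ → ℕ),
      (∀ l, Nonempty (K l →+* (S.charpoly.map (Int.castRingHom ℚ)).SplittingField)) ∧
      (∀ (p : ℕ) [Fact p.Prime] (B : ℕ → Multiset ℂ), GoodPrime S p →
        IsFrobSpec p (fun r => hessCount S a b (GaloisField p r)) B →
        ∀ (i : ℕ) (s : ℂ), ((B i).map (fun α => (1 - α * (p : ℂ) ^ (-s))⁻¹)).prod =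
          ∏ l, dedFactor (K l) (s - (i : ℂ) / 2) p ^ m l i) ∧
      ∀ i : ℕ, ∃ (H : ℂ → ℂ) (e : ℕ), Differentiable ℂ H ∧ (Odd i → e = 0) ∧
        ∀ s : ℂ, (i : ℝ) / 2 + 1 < s.re →
          HasProd (fun p : Nat.Primes => ∏ l, dedFactor (K l) (s - (i : ℂ) / 2) p ^ m l i)
            (H s / (s - ((i : ℂ) / 2 + 1)) ^ e) := by
  refine ⟨finite_bad_poly S.charpoly hS, ?_, main S hS a b hab hbn⟩
  intro p hp hgood
  have h1 := isFrobSpec_hessB S hS a b hab hbn p hgood
  exact ⟨_, h1, fun B hB => hB.unique hp.out.one_lt h1⟩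

end Pool.Agent.Results.MP_039d94_nt.HessenbergTwoStep
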