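import Mathlib
import Pool.Agent.helper4.OGMain

/-! # Hasse–Weil L-functions of quadric bundles over the projective line and of their
relative orthogonal Grassmannians -/

noncomputable section

namespace Pool.Agent.Results.MP_039d94_nt.QuadricBundles

open Pool.Agent.Helper4 Polynomial NumberField IsDedekindDomain

/-- The Euler factor at `p` of the Dedekind zeta function of the number field `K` at `s`. -/
def dedFactor (K : Type) [Field K] [NumberField K] (s : ℂ) (p : ℕ) : ℂ :=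
  ∏ᶠ q : {q : HeightOneSpectrum (𝓞 K) // (p : 𝓞 K) ∈ q.asIdeal},
    (1 - (Ideal.absNorm q.1.asIdeal : ℂ) ^ (-s))⁻¹

/-- Q1 for the quadric bundles of odd rank over the projective line (`k = 1`) and for their
relative orthogonal Grassmannians, in all degrees. -/
theorem result (m : ℕ) (hm : 1 ≤ m) (δ : Fin (2 * m + 1) → ℤ)
    (A : Matrix (Fin (2 * m + 1)) (Fin (2 * m + 1)) ℤ[X]) (hA : IsBundle m δ A) (k : ℕ) :
    ∃ Z : Set ℕ, Z.Finite ∧
    (∀ (p : ℕ) [Fact p.Prime], p ∉ Z →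
      ∃! B : ℕ → Multiset ℂ, IsFrobSpec p (fun r => ogCount δ A k (GaloisField p r)) B) ∧
    ∃ (ι : Type) (_ : Fintype ι) (K : ι → Type) (_ : ∀ l, Field (K l)) (_ : ∀ l, NumberField (K l))
      (e : ι → ℕ → ℤ),
      (∀ (p : ℕ) [Fact p.Prime] (B : ℕ → Multiset ℂ), p ∉ Z →
        IsFrobSpec p (fun r => ogCount δ A k (GaloisField p r)) B →
        ∀ (i : ℕ) (s : ℂ), (i : ℝ) / 2 < s.re →
          ((B i).map (fun α => (1 - α * (p : ℂ) ^ (-s))⁻¹)).prod =
            ∏ l, dedFactor (K l) (s - (i : ℂ) / 2) p ^ e l i) ∧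
      ∀ i : ℕ, ∃ (H : ℂ → ℂ) (n : ℕ), Differentiable ℂ H ∧ (Odd i → n = 0) ∧
        ∀ s : ℂ, (i : ℝ) / 2 + 1 < s.re →
          HasProd (fun p : Nat.Primes => ∏ l, dedFactor (K l) (s - (i : ℂ) / 2) p ^ e l i)
            (H s / (s - ((i : ℂ) / 2 + 1)) ^ n) := by
  obtain ⟨m, rfl⟩ := Nat.exists_eq_add_of_le' hm
  exact ⟨badSet δ A, finite_badSet hA, og_Q1 hA k⟩

end Pool.Agent.Results.MP_039d94_nt.QuadricBundles
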