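import Mathlib
import Pool.Agent.PGZ.FINAL

/-!
# L-functions of surfaces with `p_g = 0` and `b₂ - ρ ≤ 5`

`F / ℚ` is a finite Galois extension with group `G`, and `Λ` is a `G`-lattice with a `G`-invariant
unimodular symmetric form `B` and a `G`-invariant characteristic vector `w`, definite on the
orthogonal complement of the invariants, which has rank at most `5` (`IsCyc`, `RankOK`).
For a smooth projective surface `X` over `ℚ` with `p_g = 0` this is `Λ = H²(X, ℤ)` modulo torsion,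
`w` the canonical class, `d = 1`.

The full Euler product of `Λ` (with the inertia invariants at all primes) is, in its half plane of
convergence, `D s / (s - (d + 1)) ^ n` with an entire function `D`.

The definitions `fixS`, `detC`, `det1`, `locDet`, `IsCyc`, `RankOK`, `euler` are in `Pool.Agent.PGZ.Defs`.
-/

set_option autoImplicit false

noncomputable section

namespace Pool.Agent.Results.MP_039d94_nt.SurfacesPgZero

open NumberField Pool.Agent.PGZ

theorem result (F : Type) [Field F] [NumberField F] [IsGalois ℚ F] (Λ : Type) [AddCommGroup Λ]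
    [Module.Free ℤ Λ] [Module.Finite ℤ Λ] [DistribMulAction (F ≃ₐ[ℚ] F) Λ]
    (B : Λ →ₗ[ℤ] Λ →ₗ[ℤ] ℤ) (w : Λ) (ε : ℤ) (hc : IsCyc (F ≃ₐ[ℚ] F) B w ε)
    (hr : RankOK (F ≃ₐ[ℚ] F) B w ε) (d : ℕ) :
    ∃ (D : ℂ → ℂ) (n : ℕ), Differentiable ℂ D ∧
      ∀ (P : Nat.Primes → Ideal (𝓞 F)) (σ : Nat.Primes → (F ≃ₐ[ℚ] F))
        (hP : ∀ p, (P p).IsPrime) (_ : ∀ p : Nat.Primes, ((p : ℕ) : 𝓞 F) ∈ P p)
        (hσ : ∀ p, IsArithFrobAt ℤ (σ p) (P p)) (s : ℂ), (d : ℝ) + 1 < s.re →
        HasProd (fun p : Nat.Primes => euler Λ (hP p) (hσ p) ((p : ℂ) ^ ((d : ℂ) - s)))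
          (D s / (s - ((d : ℂ) + 1)) ^ n) :=
  main F Λ B w ε hc hr d

end Pool.Agent.Results.MP_039d94_nt.SurfacesPgZero
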